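import Pool.Agent.R557.CKFin

set_option autoImplicit false

/-! Problem MP_018646_lc, question Q1: every measure satisfying (B1) also satisfies (A1), so the
implication (A1) => (B1) is not proper. -/

namespace Pool.Agent.Results.MP_018646_lc.BOneImpliesAOne

open MeasureTheory Finset
open Pool.Agent.TH676.CK (isKP_cx isPlain_cx)
open Pool.Agent.R557.CK

/-- An optimal plain machine: a partial computable map `U` from programs (binary strings) to binary
strings which simulates every partial computable map `V` with programs longer by at most a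
constant. -/
def OptimalPlain (U : List Bool →. List Bool) : Prop :=
  Partrec U ∧ ∀ V : List Bool →. List Bool, Partrec V →
    ∃ c : ℕ, ∀ p x : List Bool, x ∈ V p → ∃ q : List Bool, x ∈ U q ∧ q.length ≤ p.length + c

/-- A prefix-free machine: a partial computable map whose domain contains no program together with a
proper extension of it. -/
def PrefixFreeMachine (V : List Bool →. List Bool) : Prop :=
  Partrec V ∧ ∀ p q : List Bool, (V p).Dom → (V q).Dom → p <+: q → p = q

/-- An optimal prefix-free machine. -/
def OptimalPrefixFree (U : List Bool →. List Bool) : Prop :=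
  PrefixFreeMachine U ∧ ∀ V : List Bool →. List Bool, PrefixFreeMachine V →
    ∃ c : ℕ, ∀ p x : List Bool, x ∈ V p → ∃ q : List Bool, x ∈ U q ∧ q.length ≤ p.length + c

/-- The complexity of `x` with respect to the machine `U`: the least length of a program for `x`.
For an optimal plain machine this is `C(x)`, for an optimal prefix-free machine it is `K(x)`. -/
noncomputable def complexity (U : List Bool →. List Bool) (x : List Bool) : ℕ :=
  sInf {l : ℕ | ∃ p : List Bool, p.length = l ∧ x ∈ U p}

/-- The `μ`-average of `F` at length `n`: the sum of `μ[x] F(x)` over the strings `x` of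
length `n`, where `μ[x]` is the measure of the set of sequences extending `x`. -/
noncomputable def average (F : List Bool → ℕ) (μ : Measure (ℕ → Bool)) (n : ℕ) : ℝ :=
  ∑ x : Fin n → Bool, μ.real {X | ∀ i : Fin n, X i = x i} * F (List.ofFn x)

/-- Property (A1), for the prefix-free machine `V`; the string `str n` is the code of `n`. -/
def A1 (V : List Bool →. List Bool) (str : ℕ ≃ List Bool) (μ : Measure (ℕ → Bool)) : Prop :=
  ∃ c : ℝ, ∀ N : ℕ, ∃ n : ℕ, N ≤ n ∧
    (n : ℝ) + complexity V (str n) - c ≤ average (complexity V) μ n

/-- Property (B1), for the plain machine `U`. -/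
def B1 (U : List Bool →. List Bool) (μ : Measure (ℕ → Bool)) : Prop :=
  ∃ c : ℝ, ∀ N : ℕ, ∃ n : ℕ, N ≤ n ∧ (n : ℝ) - c ≤ average (complexity U) μ n

/-- Every measure satisfying (B1) satisfies (A1), for all optimal machines and every computable
coding of natural numbers by strings. -/
theorem result (U V : List Bool →. List Bool) (hU : OptimalPlain U) (hV : OptimalPrefixFree V)
    (str : ℕ ≃ List Bool) (hs : Computable str) (μ : Measure (ℕ → Bool)) [IsProbabilityMeasure μ]
    (hμ : B1 U μ) : A1 V str μ := by
  classical
  have hC := isPlain_cx (U := U) hU str hs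
  have hK := isKP_cx (V := V) hV str hs
  set C : ℕ → ℕ := fun n => complexity U (str n) with hCdef
  set K : ℕ → ℕ := fun n => complexity V (str n) with hKdef
  change Pool.Agent.TH676.CK.IsPlain C at hC
  change Pool.Agent.Helper981.KP.IsKP K at hK
  obtain ⟨c, hc⟩ := star_meas str hs hK hC
  have havgU : ∀ m : ℕ, average (complexity U) μ m =
      ∫ X, (C (str.symm (ini m X)) : ℝ) ∂μ := by
    intro m
    simp only [hCdef, Equiv.apply_symm_apply]
    exact integral_ini μ m (fun x => (complexity U x : ℝ))
  have havgV : ∀ m : ℕ, average (complexity V) μ m =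
      ∫ X, (K (str.symm (ini m X)) : ℝ) ∂μ := by
    intro m
    simp only [hKdef, Equiv.apply_symm_apply]
    exact integral_ini μ m (fun x => (complexity V x : ℝ))
  obtain ⟨c0, hc0⟩ := hμ
  refine ⟨4 * (c + c0) + 1, fun p => ?_⟩
  obtain ⟨r, w, hw0, hw1, n₁, hn₁⟩ := hc p
  obtain ⟨n, hn, hBn⟩ := hc0 n₁
  have h1 := hn₁ n hn μ
  rw [← havgU] at h1
  by_contra hcon
  push Not at hcon
  have h2 : ∑ z ∈ Ico p r, w z * (4 * (c + c0) + 1) ≤ ∑ z ∈ Ico p r,
      w z * ((z : ℝ) + K z - ∫ X, (K (str.symm (ini z X)) : ℝ) ∂μ) := by
    apply Finset.sum_le_sum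
    intro z hz
    apply mul_le_mul_of_nonneg_left _ (hw0 z hz)
    rw [mem_Ico] at hz
    have h3 := hcon z hz.1
    rw [havgV] at h3
    have h4 : (K z : ℝ) = complexity V (str z) := rfl
    linarith
  rw [← Finset.sum_mul, hw1, one_mul] at h2
  linarith

end Pool.Agent.Results.MP_018646_lc.BOneImpliesAOne
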