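import Pool.Agent.R557.CKDef

set_option autoImplicit false

/-! Problem MP_018646_lc, question Q2: every measure satisfying (B2) also satisfies (A2), so the
implication (A2) => (B2) is not proper. -/

namespace Pool.Agent.Results.MP_018646_lc.BTwoImpliesATwo

open MeasureTheory Finset
open Pool.Agent.TH676.CK (isKP_cx isPlain_cx card_len approx_plain)
open Pool.Agent.R557.CK

/-- An optimal plain machine: a partial computable map `U` from programs (binary strings) to binary
strings which simulates every partial computable map `V` with programs longer by at most a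
constant. -/
def OptimalPlain (U : List Bool →. List Bool) : Prop :=
  Partrec U ∧ ∀ V : List Bool →. List Bool, Partrec V →
    ∃ c : ℕ, ∀ p x : List Bool, x ∈ V p → ∃ q : List Bool, x ∈ U q ∧ q.length ≤ p.length + c

/-- A prefix-free machine: a partial computable map whose domain contains no program together with a
proper extension of it. -/
def PrefixFreeMachine (V : List Bool →. List Bool) : Prop :=
  Partrec V ∧ ∀ p q : List Bool, (V p).Dom → (V q).Dom → p <+: q → p = q

/-- An optimal prefix-free machine. -/
def OptimalPrefixFree (U : List Bool →. List Bool) : Prop :=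
  PrefixFreeMachine U ∧ ∀ V : List Bool →. List Bool, PrefixFreeMachine V →
    ∃ c : ℕ, ∀ p x : List Bool, x ∈ V p → ∃ q : List Bool, x ∈ U q ∧ q.length ≤ p.length + c

/-- The complexity of `x` with respect to the machine `U`: the least length of a program for `x`.
For an optimal plain machine this is `C(x)`, for an optimal prefix-free machine it is `K(x)`. -/
noncomputable def complexity (U : List Bool →. List Bool) (x : List Bool) : ℕ :=
  sInf {l : ℕ | ∃ p : List Bool, p.length = l ∧ x ∈ U p}

/-- The `μ`-average of `F` at length `n`: the sum of `μ[x] F(x)` over the strings `x` of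
length `n`, where `μ[x]` is the measure of the set of sequences extending `x`. -/
noncomputable def average (F : List Bool → ℕ) (μ : Measure (ℕ → Bool)) (n : ℕ) : ℝ :=
  ∑ x : Fin n → Bool, μ.real {X | ∀ i : Fin n, X i = x i} * F (List.ofFn x)

/-- Property (A2), for the prefix-free machine `V`; the string `str n` is the code of `n`. -/
def A2 (V : List Bool →. List Bool) (str : ℕ ≃ List Bool) (μ : Measure (ℕ → Bool)) : Prop :=
  ∃ c : ℝ, ∀ n : ℕ, (n : ℝ) + complexity V (str n) - c ≤ average (complexity V) μ n

/-- Property (B2), for the plain machine `U`. -/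
def B2 (U : List Bool →. List Bool) (μ : Measure (ℕ → Bool)) : Prop :=
  ∃ c : ℝ, ∀ n : ℕ, (n : ℝ) - c ≤ average (complexity U) μ n

/-- Every measure satisfying (B2) satisfies (A2), for all optimal machines and every computable
coding of natural numbers by strings. -/
theorem result (U V : List Bool →. List Bool) (hU : OptimalPlain U) (hV : OptimalPrefixFree V)
    (str : ℕ ≃ List Bool) (hs : Computable str) (μ : Measure (ℕ → Bool)) [IsProbabilityMeasure μ]
    (hμ : B2 U μ) : A2 V str μ := by
  classical
  have hC := isPlain_cx (U := U) hU str hs
  have hK := isKP_cx (V := V) hV str hs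
  set C : ℕ → ℕ := fun n => complexity U (str n) with hCdef
  set K : ℕ → ℕ := fun n => complexity V (str n) with hKdef
  change Pool.Agent.TH676.CK.IsPlain C at hC
  change Pool.Agent.Helper981.KP.IsKP K at hK
  obtain ⟨c1, hc1⟩ := compress str hs hK hC
  -- the trivial bound
  obtain ⟨c2, hc2⟩ := approx_plain hC (fun u _ => len str u + 1)
    (Pool.Agent.H166R3.AT.c_add ((c_len str hs).comp Computable.fst) (Computable.const 1)) (by
      intro k T τ hT
      have hmaps : ∀ u ∈ T, len str u ∈ range k := by
        intro u hu
        have := hT u hu
        rw [mem_range]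
        omega
      rw [Finset.card_eq_sum_card_fiberwise hmaps]
      refine le_trans (Finset.sum_le_sum (g := fun N => 2 ^ N) ?_) ((nat_geo k).trans
        (Nat.pow_le_pow_right (by norm_num) (by omega)))
      intro N _
      apply card_len_le str N
      intro u hu
      exact (mem_filter.1 hu).2)
  obtain ⟨c, hc⟩ := hμ
  set e : ℕ := c1 + c2 + 1 with he
  refine ⟨2 * (c + e) + 1, fun n => ?_⟩
  set N := Nat.pair n (K n) with hN
  have hnN : n ≤ N := Nat.left_le_pair _ _
  -- the pointwise bound
  have hpoint : ∀ X : ℕ → Bool, (complexity U (ini N X) : ℝ) ≤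
      (N : ℝ) + e + 1 / 2 - ((n : ℝ) + K n - complexity V (ini n X)) / 2 := by
    intro X
    set y := str.symm (ini N X) with hy
    have hylen : len str y = N := len_ini str N X
    have hytk : tk str n y = str.symm (ini n X) := tk_ini str hnN X
    have hKx : K (tk str n y) = complexity V (ini n X) := by
      rw [hytk]
      simp only [hKdef, Equiv.apply_symm_apply]
    have hCy : C y = complexity U (ini N X) := by
      rw [hy]
      simp only [hCdef, Equiv.apply_symm_apply]
    have h1 : C y + (n + K n - K (tk str n y)) / 2 ≤ N + e := by
      by_cases hle : K (tk str n y) ≤ n + K n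
      · have h2 := hc1 n (n + K n - K (tk str n y)) y hylen (by omega)
        rw [hylen] at h2
        omega
      · have h2 := hc2 y 0
        rw [hylen] at h2
        omega
    rw [hCy, hKx] at h1
    have h2 : n + K n ≤ complexity V (ini n X) + 2 * ((n + K n - complexity V (ini n X)) / 2) + 1 := by
      omega
    have h3 : (complexity U (ini N X) : ℝ) + ((n + K n - complexity V (ini n X)) / 2 : ℕ) ≤
        N + e := by exact_mod_cast h1
    have h4 : (n : ℝ) + K n ≤ complexity V (ini n X) +
        2 * ((n + K n - complexity V (ini n X)) / 2 : ℕ) + 1 := by exact_mod_cast h2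
    linarith
  have hintU : Integrable (fun X : ℕ → Bool => (complexity U (ini N X) : ℝ)) μ :=
    integrable_ini μ N (fun x => (complexity U x : ℝ))
  have hintV : Integrable (fun X : ℕ → Bool => (complexity V (ini n X) : ℝ)) μ :=
    integrable_ini μ n (fun x => (complexity V x : ℝ))
  have havg : ∀ (W : List Bool →. List Bool) (m : ℕ), average (complexity W) μ m =
      ∫ X, (complexity W (ini m X) : ℝ) ∂μ := fun W m =>
    integral_ini μ m (fun x => (complexity W x : ℝ))
  have h1 := hc N
  rw [havg] at h1 ⊢
  have h2 : ∫ X, (complexity U (ini N X) : ℝ) ∂μ ≤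
      (N : ℝ) + e + 1 / 2 - ((n : ℝ) + K n) / 2 + (∫ X, (complexity V (ini n X) : ℝ) ∂μ) / 2 := by
    calc ∫ X, (complexity U (ini N X) : ℝ) ∂μ
        ≤ ∫ X, (((N : ℝ) + e + 1 / 2 - ((n : ℝ) + K n) / 2) +
            (1 / 2) * (complexity V (ini n X) : ℝ)) ∂μ := by
          apply integral_mono hintU ((integrable_const _).add (hintV.const_mul _))
          intro X
          have := hpoint X
          simp only [Pi.add_apply]
          linarith
      _ = _ := by
          rw [integral_add (integrable_const _) (hintV.const_mul _), integral_const,
            integral_const_mul]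
          simp only [probReal_univ, one_smul]
          ring
  have h3 : (K n : ℝ) = complexity V (str n) := rfl
  rw [← h3]
  linarith

end Pool.Agent.Results.MP_018646_lc.BTwoImpliesATwo
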